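import Pool.Agent.ANR.Stmts

/-! # Squad ANR, row QSY: conjugate sources have the same flux -/

set_option autoImplicit false

open scoped BigOperators ComplexConjugate

namespace Pool.Agent.ANR.H31

open Pool.Agent.ANR

/-- the sum over all sites of `f x * opv ψ x` is the sum over `F` -/
theorem sum_sol {X : Type} [Fintype X] [DecidableEq X] (H : Matrix X X ℝ) (κ : X → ℝ)
    (F : Finset X) (ψ f : X → ℂ) (hψ : Sol H κ F ψ) :
    ∑ x, f x * opv H κ ψ x = ∑ b ∈ F, f b * opv H κ ψ b := by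
  rw [← Finset.sum_add_sum_compl F]
  have h : ∑ x ∈ Fᶜ, f x * opv H κ ψ x = 0 := by
    apply Finset.sum_eq_zero
    intro x hx
    rw [Finset.mem_compl] at hx
    rw [hψ x hx, mul_zero]
  rw [h, add_zero]

/-- the flux from the sources -/
theorem flux_eq {X : Type} [Fintype X] [DecidableEq X] (H : Matrix X X ℝ) (κ : X → ℝ)
    (F : Finset X)
    (h2 : ∀ ψ : X → ℂ, (∑ x, conj (ψ x) * opv H κ ψ x).im = - ∑ x, κ x * ‖ψ x‖ ^ 2)
    (ψ : X → ℂ) (hψ : Sol H κ F ψ) :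
    Q κ F ψ = - (∑ b ∈ F, conj (ψ b) * opv H κ ψ b).im - ∑ b ∈ F, κ b * ‖ψ b‖ ^ 2 := by
  have h3 := h2 ψ
  rw [sum_sol H κ F ψ (fun x => conj (ψ x)) hψ] at h3
  rw [← Finset.sum_add_sum_compl F (fun x => κ x * ‖ψ x‖ ^ 2)] at h3
  unfold Q
  linarith

/-- QSY -/
theorem qsy (hG : GrnStmt) : QsyStmt := by
  intro X _ _ H κ F hN φ ψ hφ hψ hc
  obtain ⟨h1, h2⟩ := hG X H κ hN
  rw [flux_eq H κ F h2 φ hφ, flux_eq H κ F h2 ψ hψ]
  have e1 : ∑ b ∈ F, conj (ψ b) * opv H κ ψ b = ∑ b ∈ F, φ b * opv H κ ψ b :=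
    Finset.sum_congr rfl fun b hb => by rw [hc b hb]
  have e2 : ∑ b ∈ F, conj (φ b) * opv H κ φ b = ∑ b ∈ F, ψ b * opv H κ φ b :=
    Finset.sum_congr rfl fun b hb => by rw [hc b hb, Complex.conj_conj]
  have e3 : ∑ b ∈ F, φ b * opv H κ ψ b = ∑ b ∈ F, ψ b * opv H κ φ b := by
    rw [← sum_sol H κ F ψ φ hψ, ← sum_sol H κ F φ ψ hφ]
    exact h1 φ ψ
  have e4 : ∑ b ∈ F, κ b * ‖φ b‖ ^ 2 = ∑ b ∈ F, κ b * ‖ψ b‖ ^ 2 :=
    Finset.sum_congr rfl fun b hb => by rw [hc b hb, RCLike.norm_conj]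
  rw [e1, e2, e3, e4]

end Pool.Agent.ANR.H31
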